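import Pool.Agent.H18.SQL.Growth2
import Pool.Agent.H72.PER.All3

/-!
# Algebraic values of the exponential function at rational functions of a complex number
-/

set_option autoImplicit false

open Module Polynomial

namespace Pool.Agent.H18.SQL

open Pool.Agent.H72.BF (Pkg)
open Pool.Agent.H72.PER (HRS cstHom hrlAll)

noncomputable section

/-- residues of algebraic numbers are in `kb` -/
theorem cst_mem {H : ℕ → ℝ} (P : Pkg H) (z : ℂ) (hz : IsAlgebraic ℚ z) : cstHom P z ∈ P.kb := by
  rw [mem_algebraicClosure_iff]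
  have h1 : IsAlgebraic ℚ (cstHom P z) := by
    obtain ⟨p, hp, hp0⟩ := hz
    refine ⟨p, hp, ?_⟩
    have h2 := congrArg (cstHom P) hp0
    rw [map_zero, aeval_def, hom_eval₂] at h2
    rw [aeval_def]
    rw [← h2]
    congr 1
    exact Subsingleton.elim _ _
  exact h1.tower_top P.kk

/-- the residue map on algebraic numbers -/
def sig {H : ℕ → ℝ} (P : Pkg H) : (algebraicClosure ℚ ℂ) →+* P.kb :=
  ((cstHom P).comp (algebraMap (algebraicClosure ℚ ℂ) ℂ)).codRestrict P.kb fun z =>
    cst_mem P _ ((mem_algebraicClosure_iff).1 z.2)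

theorem aeval_sig {H : ℕ → ℝ} (P : Pkg H) (t : ℂ) (q : (algebraicClosure ℚ ℂ)[X]) :
    aeval (P.cst t) (q.map (sig P)) = P.cst (aeval t q) := by
  have h1 : P.cst (aeval t q) = cstHom P (aeval t q) := rfl
  have h2 : P.cst t = cstHom P t := rfl
  rw [h1, h2, aeval_def, aeval_def, hom_eval₂, eval₂_map]
  congr 1

/-- the case of a common denominator -/
theorem common (t : ℂ) (n D : ℕ) (b : (algebraicClosure ℚ ℂ)[X])
    (a : Fin n → (algebraicClosure ℚ ℂ)[X]) (hb : b.natDegree ≤ D)
    (ha : ∀ i, (a i).natDegree ≤ D) (hbt : aeval t b ≠ 0)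
    (hexp : ∀ i, IsAlgebraic ℚ (Complex.exp (aeval t (a i) / aeval t b)))
    (hli : LinearIndependent ℚ (fun i => aeval t (a i) / aeval t b)) :
    (n + 1) ^ 2 ≤ 4 * D + 1 := by
  obtain ⟨P⟩ := Pool.Agent.H29.BF.pkg (fun j => (j : ℝ) + 2) (fun j => by
    have : (0 : ℝ) ≤ (j : ℝ) := Nat.cast_nonneg j
    linarith)
  have hx := hrlAll n (fun i => aeval t (a i) / aeval t b) hli hexp (fun j => (j : ℝ) + 2)
    (fun _ => le_rfl) P
  refine sqrt_law (fun k => P.cst (aeval t (a k) / aeval t b)) hx (P.cst t)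
    (Fin.cons (b.map (sig P)) fun i => (a i).map (sig P)) ?_ ?_ D ?_
  · rw [Fin.cons_zero, aeval_sig, Ne, P.cst_eq_zero]
    exact hbt
  · intro k
    rw [Fin.cons_zero, Fin.cons_succ, aeval_sig, aeval_sig, ← P.cst_mul, div_mul_cancel₀ _ hbt]
  · intro k
    refine Fin.cases ?_ (fun i => ?_) k
    · rw [Fin.cons_zero]
      exact natDegree_map_le.trans hb
    · rw [Fin.cons_succ]
      exact natDegree_map_le.trans (ha i)

/-- the case of arbitrary denominators -/
theorem arbitrary (t : ℂ) (n D : ℕ) (a b : Fin n → (algebraicClosure ℚ ℂ)[X])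
    (ha : ∀ i, (a i).natDegree ≤ D) (hb : ∀ i, (b i).natDegree ≤ D)
    (hbt : ∀ i, aeval t (b i) ≠ 0)
    (hexp : ∀ i, IsAlgebraic ℚ (Complex.exp (aeval t (a i) / aeval t (b i))))
    (hli : LinearIndependent ℚ (fun i => aeval t (a i) / aeval t (b i))) :
    n ≤ 4 * D - 2 := by
  classical
  have hval : ∀ i, aeval t (a i * ∏ j ∈ Finset.univ.erase i, b j) / aeval t (∏ j, b j) =
      aeval t (a i) / aeval t (b i) := by
    intro i
    have h1 : aeval t (∏ j ∈ Finset.univ.erase i, b j) ≠ 0 := by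
      rw [map_prod]
      exact Finset.prod_ne_zero_iff.2 fun j _ => hbt j
    rw [← Finset.mul_prod_erase Finset.univ b (Finset.mem_univ i), map_mul, map_mul]
    exact mul_div_mul_right _ _ h1
  have h := common t n (n * D) (∏ j, b j) (fun i => a i * ∏ j ∈ Finset.univ.erase i, b j)
    ?_ ?_ ?_ ?_ ?_
  · rcases Nat.eq_zero_or_pos n with h0 | hpos
    · rw [h0]
      exact Nat.zero_le _
    · have h2 : n * (n + 2) ≤ n * (4 * D) := by nlinarith
      have h3 : n + 2 ≤ 4 * D := Nat.le_of_mul_le_mul_left h2 hpos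
      omega
  · refine (natDegree_prod_le _ _).trans ?_
    refine (Finset.sum_le_card_nsmul Finset.univ _ D fun j _ => hb j).trans ?_
    simp
  · intro i
    refine natDegree_mul_le.trans ?_
    have h1 : (∏ j ∈ Finset.univ.erase i, b j).natDegree ≤ (n - 1) * D := by
      refine (natDegree_prod_le _ _).trans ?_
      refine (Finset.sum_le_card_nsmul (Finset.univ.erase i) _ D fun j _ => hb j).trans ?_
      rw [Finset.card_erase_of_mem (Finset.mem_univ i), Finset.card_univ, Fintype.card_fin,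
        smul_eq_mul]
    have hn : 0 < n := i.pos
    obtain ⟨m, rfl⟩ : ∃ m, n = m + 1 := ⟨n - 1, by omega⟩
    have h2 := ha i
    rw [Nat.add_sub_cancel] at h1
    nlinarith
  · rw [map_prod]
    exact Finset.prod_ne_zero_iff.2 fun j _ => hbt j
  · intro i
    rw [hval i]
    exact hexp i
  · simp_rw [hval]
    exact hli

end

end Pool.Agent.H18.SQL
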