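import Pool.Agent.H72.PER.Targets

/-!
# Growth of the products with a space of logarithms

Let `x` satisfy the half rank property over `K`, and let `1, x 0, ..., x (n-1)` be the values at
`t` of `g 0, ..., g n` divided by the value of `g 0`.  Then the product of the span `L` of the
polynomials `g k` with every space `E` of polynomials of dimension `u` has dimension at least
`u (n + 2 - u)`.
-/

set_option autoImplicit false

open Module Polynomial

namespace Pool.Agent.H18.SQL

open Pool.Agent.H72.SBP (MvK)
open Pool.Agent.H72.PER (HRS Into)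

section basic
variable {K : Type} [Field K] {n : ℕ}

/-- the sum of the products with the `g k` -/
noncomputable def mulSum (g : Fin (n + 1) → K[X]) : (Fin (n + 1) → K[X]) →ₗ[K] K[X] :=
  ∑ k, (LinearMap.mulLeft K (g k)).comp (LinearMap.proj k)

theorem mulSum_apply (g f : Fin (n + 1) → K[X]) : mulSum g f = ∑ k, g k * f k := by
  simp [mulSum]

/-- tuples with entries in `E` -/
noncomputable def piE (n : ℕ) (E : Submodule K K[X]) : Submodule K (Fin (n + 1) → K[X]) :=
  Submodule.pi Set.univ (fun _ => E)

theorem mem_piE (E : Submodule K K[X]) (f : Fin (n + 1) → K[X]) :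
    f ∈ piE n E ↔ ∀ k, f k ∈ E := by
  simp [piE, Submodule.mem_pi]

/-- relations with entries in `E` -/
noncomputable def Rel (g : Fin (n + 1) → K[X]) (E : Submodule K K[X]) :
    Submodule K (Fin (n + 1) → K[X]) :=
  LinearMap.ker (mulSum g) ⊓ piE n E

/-- the span of the `g k` -/
noncomputable def Lam (g : Fin (n + 1) → K[X]) : Submodule K K[X] :=
  Submodule.span K (Set.range g)

theorem map_piE (g : Fin (n + 1) → K[X]) (E : Submodule K K[X]) :
    (piE n E).map (mulSum g) = Lam g * E := by
  classical
  apply le_antisymm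
  · rintro _ ⟨f, hf, rfl⟩
    have hf' := (mem_piE E f).1 hf
    rw [mulSum_apply]
    exact Submodule.sum_mem _ fun k _ =>
      Submodule.mul_mem_mul (Submodule.subset_span ⟨k, rfl⟩) (hf' k)
  · rw [Submodule.mul_le]
    intro m hm e he
    unfold Lam at hm
    induction hm using Submodule.span_induction with
    | mem x hx =>
      obtain ⟨k, rfl⟩ := hx
      refine ⟨Pi.single k e, ?_, ?_⟩
      · rw [SetLike.mem_coe, mem_piE]
        intro j
        by_cases hj : j = k
        · subst hj
          rwa [Pi.single_eq_same]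
        · rw [Pi.single_eq_of_ne hj]
          exact E.zero_mem
      · rw [mulSum_apply, Finset.sum_eq_single k]
        · rw [Pi.single_eq_same]
        · intro j _ hj
          rw [Pi.single_eq_of_ne hj, mul_zero]
        · intro h
          exact absurd (Finset.mem_univ k) h
    | zero =>
      rw [zero_mul]
      exact Submodule.zero_mem _
    | add x y _ _ hx hy =>
      rw [add_mul]
      exact Submodule.add_mem _ hx hy
    | smul c x _ hx =>
      rw [smul_mul_assoc]
      exact Submodule.smul_mem _ c hx

/-- tuples with entries in `E` as functions to `E` -/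
noncomputable def piEquiv (n : ℕ) (E : Submodule K K[X]) : piE n E ≃ₗ[K] (Fin (n + 1) → E) where
  toFun f k := ⟨f.1 k, (mem_piE E f.1).1 f.2 k⟩
  invFun h := ⟨fun k => (h k).1, (mem_piE E _).2 fun k => (h k).2⟩
  map_add' _ _ := rfl
  map_smul' _ _ := rfl
  left_inv _ := rfl
  right_inv _ := rfl

theorem finrank_piE (n : ℕ) (E : Submodule K K[X]) [FiniteDimensional K E] :
    finrank K (piE n E) = (n + 1) * finrank K E := by
  rw [LinearEquiv.finrank_eq (piEquiv n E)]
  rw [Module.finrank_pi_fintype]
  simp

instance fd_piE (n : ℕ) (E : Submodule K K[X]) [FiniteDimensional K E] :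
    FiniteDimensional K (piE n E) :=
  Module.Finite.equiv (piEquiv n E).symm

theorem rel_dim (g : Fin (n + 1) → K[X]) (E : Submodule K K[X]) [FiniteDimensional K E] :
    finrank K (Rel g E) + finrank K (Lam g * E : Submodule K K[X]) = (n + 1) * finrank K E := by
  have h1 := LinearMap.finrank_range_add_finrank_ker ((mulSum g).domRestrict (piE n E))
  rw [finrank_piE] at h1
  have h2 : LinearMap.range ((mulSum g).domRestrict (piE n E)) = Lam g * E := by
    rw [← map_piE]
    ext y
    constructor
    · rintro ⟨f, rfl⟩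
      exact ⟨f.1, f.2, rfl⟩
    · rintro ⟨f, hf, rfl⟩
      exact ⟨⟨f, hf⟩, rfl⟩
  have h3 : finrank K (LinearMap.ker ((mulSum g).domRestrict (piE n E))) = finrank K (Rel g E) := by
    have e1 : (LinearMap.ker ((mulSum g).domRestrict (piE n E))).map (piE n E).subtype =
        Rel g E := by
      ext f
      constructor
      · rintro ⟨f', hf', rfl⟩
        exact ⟨hf', f'.2⟩
      · rintro ⟨hf1, hf2⟩
        exact ⟨⟨f, hf2⟩, hf1, rfl⟩
    rw [← e1]
    exact (LinearEquiv.finrank_eq (Submodule.equivMapOfInjective (piE n E).subtype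
      (Submodule.subtype_injective _) _))
  rw [h2, h3] at h1
  omega

instance fd_rel (g : Fin (n + 1) → K[X]) (E : Submodule K K[X]) [FiniteDimensional K E] :
    FiniteDimensional K (Rel g E) :=
  Submodule.finiteDimensional_of_le (inf_le_right : Rel g E ≤ piE n E)

end basic

section rk
variable {F : Type} [Field F]

theorem rank_lt {l u : ℕ} (M : Matrix (Fin l) (Fin u) F) (v : Fin u → F) (hv : v ≠ 0)
    (h : M.mulVec v = 0) : M.rank + 1 ≤ u := by
  have h1 := LinearMap.finrank_range_add_finrank_ker M.mulVecLin
  rw [Module.finrank_fin_fun] at h1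
  have h2 : 1 ≤ finrank F (LinearMap.ker M.mulVecLin) := by
    rw [Nat.one_le_iff_ne_zero, Ne, Submodule.finrank_eq_zero]
    intro h0
    apply hv
    have : v ∈ LinearMap.ker M.mulVecLin := h
    rw [h0] at this
    exact this
  have h3 : M.rank = finrank F (LinearMap.range M.mulVecLin) := rfl
  omega

end rk

section step
variable {K F : Type} [Field K] [Field F] [Algebra K F] {n : ℕ}

/-- the induction step, when some element of `E` does not vanish at `t` -/
theorem growth_step (x : Fin n → F) (hx : HRS K F Set.univ x) (t : F) (g : Fin (n + 1) → K[X])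
    (hg0 : aeval t (g 0) ≠ 0) (hg : ∀ k : Fin n, x k * aeval t (g 0) = aeval t (g k.succ))
    (u : ℕ)
    (ih : ∀ E : Submodule K K[X], FiniteDimensional K E → finrank K E < u →
      finrank K E * (n + 2) ≤ finrank K (Lam g * E : Submodule K K[X]) +
        finrank K E * finrank K E)
    (E : Submodule K K[X]) [FiniteDimensional K E] (hE : finrank K E = u)
    (e0 : K[X]) (he0 : e0 ∈ E) (het : aeval t e0 ≠ 0) :
    u * (n + 2) ≤ finrank K (Lam g * E : Submodule K K[X]) + u * u := by
  classical
  by_contra hcon
  push Not at hcon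
  obtain ⟨l, hl⟩ : ∃ l, l = finrank K (Rel g E) := ⟨_, rfl⟩
  have hdim := rel_dim g E
  rw [← hl, hE] at hdim
  have hlu : u * u < l + u := by nlinarith
  -- bases
  obtain ⟨bE, -⟩ : ∃ b : Basis (Fin u) K E, b = b := ⟨Module.finBasisOfFinrankEq K E hE, rfl⟩
  obtain ⟨bR, -⟩ : ∃ b : Basis (Fin l) K (Rel g E), b = b :=
    ⟨Module.finBasisOfFinrankEq K (Rel g E) hl.symm, rfl⟩
  have hmem : ∀ (i : Fin l) (k : Fin (n + 1)), (bR i : Fin (n + 1) → K[X]) k ∈ E := fun i k =>
    (mem_piE E _).1 (bR i).2.2 k
  obtain ⟨A, hA⟩ : ∃ A : Fin (n + 1) → Matrix (Fin l) (Fin u) K,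
      ∀ k i j, A k i j = bE.repr ⟨(bR i : Fin (n + 1) → K[X]) k, hmem i k⟩ j :=
    ⟨fun k i j => bE.repr ⟨(bR i : Fin (n + 1) → K[X]) k, hmem i k⟩ j, fun _ _ _ => rfl⟩
  have hexpand : ∀ (i : Fin l) (k : Fin (n + 1)),
      ∑ j, A k i j • (bE j : K[X]) = (bR i : Fin (n + 1) → K[X]) k := by
    intro i k
    have h1 := bE.sum_repr ⟨(bR i : Fin (n + 1) → K[X]) k, hmem i k⟩
    have h2 := congrArg Subtype.val h1
    rw [AddSubmonoidClass.coe_finsetSum] at h2
    refine Eq.trans (Finset.sum_congr rfl fun j _ => ?_) h2
    rw [hA]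
    rfl
  -- the vector
  have hkill : (MvK x A).mulVec (fun j => aeval t (bE j : K[X])) = 0 := by
    funext i
    rw [Pi.zero_apply]
    have h1 : (MvK x A).mulVec (fun j => aeval t (bE j : K[X])) i =
        aeval t ((bR i : Fin (n + 1) → K[X]) 0) +
          ∑ k : Fin n, x k * aeval t ((bR i : Fin (n + 1) → K[X]) k.succ) := by
      simp only [Matrix.mulVec, dotProduct, MvK]
      rw [← hexpand i 0]
      have h2 : ∀ k : Fin n, x k * aeval t ((bR i : Fin (n + 1) → K[X]) k.succ) =
          ∑ j, x k * algebraMap K F (A k.succ i j) * aeval t (bE j : K[X]) := by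
        intro k
        rw [← hexpand i k.succ, map_sum, Finset.mul_sum]
        refine Finset.sum_congr rfl fun j _ => ?_
        rw [map_smul, Algebra.smul_def, mul_assoc]
      simp_rw [h2]
      rw [map_sum, Finset.sum_comm, ← Finset.sum_add_distrib]
      refine Finset.sum_congr rfl fun j _ => ?_
      rw [add_mul, map_smul, Algebra.smul_def, Finset.sum_mul]
    rw [h1]
    have h3 : aeval t (mulSum g (bR i : Fin (n + 1) → K[X])) = 0 := by
      have : mulSum g (bR i : Fin (n + 1) → K[X]) = 0 := (bR i).2.1
      rw [this, map_zero]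
    rw [mulSum_apply, map_sum, Fin.sum_univ_succ] at h3
    have h4 : aeval t (g 0) * (aeval t ((bR i : Fin (n + 1) → K[X]) 0) +
        ∑ k : Fin n, x k * aeval t ((bR i : Fin (n + 1) → K[X]) k.succ)) = 0 := by
      rw [← h3, mul_add, map_mul, Finset.mul_sum]
      congr 1
      refine Finset.sum_congr rfl fun k _ => ?_
      rw [map_mul, ← hg k]
      ring
    exact (mul_eq_zero.1 h4).resolve_left hg0
  have hv : (fun j => aeval t (bE j : K[X])) ≠ 0 := by
    intro h0
    apply het
    have h1 := bE.sum_repr ⟨e0, he0⟩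
    have h2 := congrArg Subtype.val h1
    rw [AddSubmonoidClass.coe_finsetSum] at h2
    have h3 : e0 = ∑ j, ((bE.repr ⟨e0, he0⟩ j) • (bE j : K[X])) := h2.symm
    rw [h3, map_sum]
    refine Finset.sum_eq_zero fun j _ => ?_
    rw [map_smul]
    have := congrFun h0 j
    rw [show aeval t (bE j : K[X]) = 0 from this, smul_zero]
  have hrank := rank_lt (MvK x A) _ hv hkill
  -- semistability
  have hsemi : ∀ (V : Submodule K (Fin l → K)) (U : Submodule K (Fin u → K)),
      Into Set.univ A V U → u * finrank K V ≤ l * finrank K U := by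
    intro V U hVU
    obtain ⟨v, hv'⟩ : ∃ v, v = finrank K V := ⟨_, rfl⟩
    obtain ⟨u', hu'⟩ : ∃ u', u' = finrank K U := ⟨_, rfl⟩
    rw [← hv', ← hu']
    have hvl : v ≤ l := by
      rw [hv']
      have := Submodule.finrank_le V
      rwa [Module.finrank_fin_fun] at this
    have huu : u' ≤ u := by
      rw [hu']
      have := Submodule.finrank_le U
      rwa [Module.finrank_fin_fun] at this
    rcases Nat.lt_or_ge u' u with hlt | hge
    · -- the space of polynomials
      obtain ⟨φ, hφ⟩ : ∃ φ : (Fin u → K) →ₗ[K] K[X], φ =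
          E.subtype.comp bE.equivFun.symm.toLinearMap := ⟨_, rfl⟩
      have hφi : Function.Injective φ := by
        rw [hφ]
        exact (Submodule.subtype_injective E).comp bE.equivFun.symm.injective
      have hφa : ∀ w : Fin u → K, φ w = ∑ j, w j • (bE j : K[X]) := by
        intro w
        rw [hφ]
        rw [LinearMap.comp_apply]
        have : bE.equivFun.symm.toLinearMap w = ∑ j, w j • bE j := bE.equivFun_symm_apply w
        rw [this, map_sum]
        rfl
      have hfdU : FiniteDimensional K (U.map φ) := inferInstance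
      have hfr : finrank K (U.map φ) = u' := by
        rw [hu']
        exact (LinearEquiv.finrank_eq (Submodule.equivMapOfInjective φ hφi U)).symm
      have h1 := ih (U.map φ) hfdU (by rw [hfr]; exact hlt)
      rw [hfr] at h1
      have h2 := rel_dim g (U.map φ)
      rw [hfr] at h2
      -- the map on rows
      obtain ⟨ψ, hψ⟩ : ∃ ψ : (Fin l → K) →ₗ[K] (Fin (n + 1) → K[X]), ψ =
          (Rel g E).subtype.comp bR.equivFun.symm.toLinearMap := ⟨_, rfl⟩
      have hψi : Function.Injective ψ := by
        rw [hψ]
        exact (Submodule.subtype_injective _).comp bR.equivFun.symm.injective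
      have hψa : ∀ y : Fin l → K, ψ y = ∑ i, y i • (bR i : Fin (n + 1) → K[X]) := by
        intro y
        rw [hψ]
        rw [LinearMap.comp_apply]
        have : bR.equivFun.symm.toLinearMap y = ∑ i, y i • bR i := bR.equivFun_symm_apply y
        rw [this, map_sum]
        rfl
      have h3 : V.map ψ ≤ Rel g (U.map φ) := by
        rintro _ ⟨y, hy, rfl⟩
        refine ⟨?_, ?_⟩
        · have : ψ y ∈ Rel g E := by
            rw [hψ]
            exact Subtype.coe_prop _
          exact this.1
        · rw [SetLike.mem_coe, mem_piE]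
          intro k
          refine ⟨Matrix.vecMul y (A k), hVU k (Set.mem_univ _) y hy, ?_⟩
          rw [hφa, hψa, Finset.sum_apply]
          have h4 : ∀ i, (y i • (bR i : Fin (n + 1) → K[X])) k =
              ∑ j, (y i * A k i j) • (bE j : K[X]) := by
            intro i
            rw [Pi.smul_apply, ← hexpand i k, Finset.smul_sum]
            exact Finset.sum_congr rfl fun j _ => by rw [smul_smul]
          simp_rw [h4]
          rw [Finset.sum_comm]
          refine Finset.sum_congr rfl fun j _ => ?_
          rw [← Finset.sum_smul]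
          rfl
      have h5 : v ≤ finrank K (Rel g (U.map φ)) := by
        rw [hv', LinearEquiv.finrank_eq (Submodule.equivMapOfInjective ψ hψi V)]
        exact Submodule.finrank_mono h3
      have h6 : v + u' ≤ u' * u' := by nlinarith
      rcases Nat.eq_zero_or_pos u' with h0 | hpos
      · rw [h0] at h6
        have : v = 0 := by omega
        rw [this]
        simp
      · obtain ⟨s, rfl⟩ : ∃ s, u' = s + 1 := ⟨u' - 1, by omega⟩
        obtain ⟨w, rfl⟩ : ∃ w, u = w + 1 := ⟨u - 1, by omega⟩
        have h7 : v ≤ (s + 1) * s := by nlinarith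
        have h8 : s ≤ w := by omega
        have h9 : (w + 1) * s ≤ l := by nlinarith
        calc (w + 1) * v ≤ (w + 1) * ((s + 1) * s) := Nat.mul_le_mul_left _ h7
          _ = ((w + 1) * s) * (s + 1) := by ring
          _ ≤ l * (s + 1) := Nat.mul_le_mul_right _ h9
    · have : u' = u := le_antisymm huu hge
      rw [this, Nat.mul_comm l u]
      exact Nat.mul_le_mul_left _ hvl
  have hfin := hx l u A hsemi
  obtain ⟨w, rfl⟩ : ∃ w, u = w + 1 := ⟨u - 1, by omega⟩
  have hr : (MvK x A).rank ≤ w := by omega
  have h10 : l * (w + 1) ≤ w * (l + (w + 1)) :=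
    hfin.trans (Nat.mul_le_mul_right _ hr)
  nlinarith

end step

end Pool.Agent.H18.SQL
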