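import Pool.Agent.H18.SQL.Growth

/-!
# Growth of the products with a space of logarithms, end of the proof
-/

set_option autoImplicit false

open Module Polynomial

namespace Pool.Agent.H18.SQL

open Pool.Agent.H72.PER (HRS Into)

variable {K F : Type} [Field K] [Field F] [Algebra K F] {n : ℕ}

/-- the polynomials whose product with `μ` lies in `E` -/
theorem reduce (E : Submodule K K[X]) (μ : K[X]) (hμ : μ ≠ 0) (hdiv : ∀ e ∈ E, μ ∣ e) :
    (E.comap (LinearMap.mulLeft K μ)).map (LinearMap.mulLeft K μ) = E := by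
  ext e
  constructor
  · rintro ⟨e', he', rfl⟩
    exact he'
  · intro he
    obtain ⟨e', rfl⟩ := hdiv e he
    exact ⟨e', he, rfl⟩

theorem mulLeft_inj (μ : K[X]) (hμ : μ ≠ 0) : Function.Injective (LinearMap.mulLeft K μ) := by
  intro a b h
  exact mul_left_cancel₀ hμ h

theorem map_mul_lam (L E' : Submodule K K[X]) (μ : K[X]) :
    (L * E').map (LinearMap.mulLeft K μ) = L * E'.map (LinearMap.mulLeft K μ) := by
  apply le_antisymm
  · rw [Submodule.map_le_iff_le_comap, Submodule.mul_le]
    intro m hm e he
    show μ * (m * e) ∈ L * E'.map (LinearMap.mulLeft K μ)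
    rw [show μ * (m * e) = m * (μ * e) by ring]
    exact Submodule.mul_mem_mul hm ⟨e, he, rfl⟩
  · rw [Submodule.mul_le]
    rintro m hm _ ⟨e, he, rfl⟩
    refine ⟨m * e, Submodule.mul_mem_mul hm he, ?_⟩
    show μ * (m * e) = m * (μ * e)
    ring

theorem growth_aux (x : Fin n → F) (hx : HRS K F Set.univ x) (t : F) (g : Fin (n + 1) → K[X])
    (hg0 : aeval t (g 0) ≠ 0) (hg : ∀ k : Fin n, x k * aeval t (g 0) = aeval t (g k.succ))
    (u : ℕ)
    (ih : ∀ E : Submodule K K[X], FiniteDimensional K E → finrank K E < u →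
      finrank K E * (n + 2) ≤ finrank K (Lam g * E : Submodule K K[X]) +
        finrank K E * finrank K E) :
    ∀ (m : ℕ) (E : Submodule K K[X]), FiniteDimensional K E → finrank K E = u →
    ∀ e ∈ E, e ≠ 0 → e.natDegree ≤ m →
    u * (n + 2) ≤ finrank K (Lam g * E : Submodule K K[X]) + u * u := by
  intro m
  induction m with
  | zero =>
    intro E hfd hE e he hne hdeg
    refine growth_step x hx t g hg0 hg u ih E hE e he ?_
    have h1 : e = C (e.coeff 0) := eq_C_of_natDegree_le_zero hdeg
    rw [h1, aeval_C]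
    intro h0
    apply hne
    have h2 : e.coeff 0 = 0 := by
      rwa [map_eq_zero] at h0
    rw [h1, h2, C_0]
  | succ m IH =>
    intro E hfd hE e he hne hdeg
    by_cases hex : ∃ e' ∈ E, aeval t e' ≠ 0
    · obtain ⟨e', he', hne'⟩ := hex
      exact growth_step x hx t g hg0 hg u ih E hE e' he' hne'
    · push Not at hex
      have halg : IsAlgebraic K t := ⟨e, hne, hex e he⟩
      have hint : IsIntegral K t := halg.isIntegral
      obtain ⟨μ, hμ⟩ : ∃ μ, μ = minpoly K t := ⟨_, rfl⟩
      have hμ0 : μ ≠ 0 := by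
        rw [hμ]
        exact minpoly.ne_zero hint
      have hdiv : ∀ e' ∈ E, μ ∣ e' := by
        intro e' he'
        rw [hμ]
        exact minpoly.dvd K t (hex e' he')
      have hred := reduce E μ hμ0 hdiv
      obtain ⟨E', hE'⟩ : ∃ E', E' = E.comap (LinearMap.mulLeft K μ) := ⟨_, rfl⟩
      rw [← hE'] at hred
      have hfr : finrank K E' = u := by
        rw [LinearEquiv.finrank_eq (Submodule.equivMapOfInjective _ (mulLeft_inj μ hμ0) E'),
          hred, hE]
      have hfd' : FiniteDimensional K E' := by
        have e1 := Submodule.equivMapOfInjective _ (mulLeft_inj μ hμ0) E'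
        rw [hred] at e1
        exact Module.Finite.equiv e1.symm
      have hprod : finrank K (Lam g * E' : Submodule K K[X]) =
          finrank K (Lam g * E : Submodule K K[X]) := by
        rw [LinearEquiv.finrank_eq (Submodule.equivMapOfInjective _ (mulLeft_inj μ hμ0)
          (Lam g * E')), map_mul_lam, hred]
      obtain ⟨e', rfl⟩ := hdiv e he
      have he'0 : e' ≠ 0 := right_ne_zero_of_mul hne
      have hdeg' : e'.natDegree ≤ m := by
        rw [natDegree_mul hμ0 he'0] at hdeg
        have h1 : 1 ≤ μ.natDegree := by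
          rw [hμ]
          exact minpoly.natDegree_pos hint
        omega
      rw [← hprod]
      refine IH E' hfd' hfr e' ?_ he'0 hdeg'
      rw [hE']
      exact he

/-- growth of products with a space of logarithms -/
theorem growth (x : Fin n → F) (hx : HRS K F Set.univ x) (t : F) (g : Fin (n + 1) → K[X])
    (hg0 : aeval t (g 0) ≠ 0) (hg : ∀ k : Fin n, x k * aeval t (g 0) = aeval t (g k.succ)) :
    ∀ (u : ℕ) (E : Submodule K K[X]), FiniteDimensional K E → finrank K E = u →
    u * (n + 2) ≤ finrank K (Lam g * E : Submodule K K[X]) + u * u := by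
  intro u
  induction u using Nat.strong_induction_on with
  | _ u IH =>
    intro E hfd hE
    rcases Nat.eq_zero_or_pos u with h0 | hpos
    · rw [h0]
      simp
    · have h1 : E ≠ ⊥ := by
        intro h
        rw [h, finrank_bot] at hE
        omega
      obtain ⟨e, he, hne⟩ := E.ne_bot_iff.1 h1
      exact growth_aux x hx t g hg0 hg u (fun E' hfd' hlt => IH _ hlt E' hfd' rfl) e.natDegree E
        hfd hE e he hne le_rfl

/-- a rational curve of degree `D` -/
theorem curve (x : Fin n → F) (hx : HRS K F Set.univ x) (t : F) (g : Fin (n + 1) → K[X])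
    (hg0 : aeval t (g 0) ≠ 0) (hg : ∀ k : Fin n, x k * aeval t (g 0) = aeval t (g k.succ))
    (D : ℕ) (hD : ∀ k, (g k).natDegree ≤ D) (p : ℕ) (hp : 0 < p) :
    p * (n + 2) ≤ (D + p) + p * p := by
  have hE : finrank K (degreeLT K p) = p := by
    rw [LinearEquiv.finrank_eq (degreeLTEquiv K p), Module.finrank_fin_fun]
  have hfd : FiniteDimensional K (degreeLT K p) := Module.Finite.equiv (degreeLTEquiv K p).symm
  have hE2 : finrank K (degreeLT K (D + p)) = D + p := by
    rw [LinearEquiv.finrank_eq (degreeLTEquiv K (D + p)), Module.finrank_fin_fun]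
  have hfd2 : FiniteDimensional K (degreeLT K (D + p)) :=
    Module.Finite.equiv (degreeLTEquiv K (D + p)).symm
  have h1 := growth x hx t g hg0 hg p (degreeLT K p) hfd hE
  have h2 : (Lam g * degreeLT K p : Submodule K K[X]) ≤ degreeLT K (D + p) := by
    rw [Submodule.mul_le]
    intro m hm e he
    have hm' : m.natDegree ≤ D := by
      have : Lam g ≤ degreeLE K (D : WithBot ℕ) := by
        unfold Lam
        rw [Submodule.span_le]
        rintro _ ⟨k, rfl⟩
        rw [SetLike.mem_coe, mem_degreeLE]
        exact natDegree_le_iff_degree_le.1 (hD k)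
      have h3 := this hm
      rw [mem_degreeLE] at h3
      exact natDegree_le_iff_degree_le.2 h3
    rw [mem_degreeLT] at he ⊢
    by_cases h0 : m * e = 0
    · rw [h0, degree_zero]
      exact WithBot.bot_lt_coe _
    · have hm0 := left_ne_zero_of_mul h0
      have he0 := right_ne_zero_of_mul h0
      rw [← natDegree_lt_iff_degree_lt he0] at he
      rw [← natDegree_lt_iff_degree_lt h0, natDegree_mul hm0 he0]
      omega
  have h3 := Submodule.finrank_mono h2
  rw [hE2] at h3
  omega

/-- the square root law -/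
theorem sqrt_law (x : Fin n → F) (hx : HRS K F Set.univ x) (t : F) (g : Fin (n + 1) → K[X])
    (hg0 : aeval t (g 0) ≠ 0) (hg : ∀ k : Fin n, x k * aeval t (g 0) = aeval t (g k.succ))
    (D : ℕ) (hD : ∀ k, (g k).natDegree ≤ D) : (n + 1) ^ 2 ≤ 4 * D + 1 := by
  rcases Nat.even_or_odd' n with ⟨s, rfl | rfl⟩
  · rcases Nat.eq_zero_or_pos s with h0 | hpos
    · subst h0
      nlinarith
    · have := curve x hx t g hg0 hg D hD s hpos
      nlinarith
  · have := curve x hx t g hg0 hg D hD (s + 1) (Nat.succ_pos s)
    nlinarith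

end Pool.Agent.H18.SQL
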